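import Mathlib

set_option autoImplicit false
open Polynomial

namespace Pool.Agent.Results.MP_1c7d4c_an.CondANotD

/-- The monic real polynomial whose zeros are simple and form the finite set `S`. -/
noncomputable def poly (S : Finset ℝ) : ℝ[X] := ∏ a ∈ S, (X - C a)

/-- Condition (a). -/
def CondA (Q : ℝ[X]) : Prop :=
  ∀ k ≤ Q.natDegree, ∀ x : ℝ, -1 < x → x < 1 →
    |(derivative^[k] Q).eval x| ≤ (derivative^[k] Q).eval 1

/-- Property (D). -/
def PropD (Q : ℝ[X]) : Prop :=
  ∀ x y : ℝ, -1 ≤ x → x ≤ 1 →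
    ‖aeval ((x : ℂ) + y * Complex.I) Q‖ ≤ ‖aeval ((1 : ℂ) + y * Complex.I) Q‖

/-! Coefficientwise domination. -/

theorem dom_mul (p q P Q : ℝ[X]) (hp : ∀ k, |p.coeff k| ≤ P.coeff k)
    (hq : ∀ k, |q.coeff k| ≤ Q.coeff k) (k : ℕ) : |(p * q).coeff k| ≤ (P * Q).coeff k := by
  rw [coeff_mul, coeff_mul]
  refine (Finset.abs_sum_le_sum_abs _ _).trans ?_
  apply Finset.sum_le_sum
  intro x _
  rw [abs_mul]
  exact mul_le_mul (hp _) (hq _) (abs_nonneg _) ((abs_nonneg _).trans (hp _))

/-- The quadratic building block. -/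
noncomputable def quad (a b : ℝ) : ℝ[X] := C a + C b * X + X ^ 2

theorem dom_quad (a b a' b' : ℝ) (ha : |a| ≤ a') (hb : |b| ≤ b') (k : ℕ) :
    |(quad a b).coeff k| ≤ (quad a' b').coeff k := by
  unfold quad
  rcases k with _ | _ | _ | k
  · simpa using ha
  · simpa [coeff_X, coeff_X_pow, coeff_C] using hb
  · simp [coeff_X_pow]
  · simp [coeff_X_pow]

theorem dom_prod (L : List ℕ) (α α' : ℕ → ℝ) (β β' : ℝ) (h : ∀ m ∈ L, |α m| ≤ α' m)
    (hβ : |β| ≤ β') (k : ℕ) :
    |((L.map (fun m => quad (α m) β)).prod).coeff k| ≤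
      ((L.map (fun m => quad (α' m) β')).prod).coeff k := by
  induction L generalizing k with
  | nil =>
    simp only [List.map_nil, List.prod_nil, coeff_one]
    split_ifs <;> simp
  | cons m L ih =>
    simp only [List.map_cons, List.prod_cons]
    apply dom_mul
    · exact dom_quad _ _ _ _ (h m (by simp)) hβ
    · intro k
      exact ih (fun m hm => h m (by simp [hm])) k

/-! Kronecker substitution. -/

theorem coeff_le_eval_one (P : ℕ[X]) (k : ℕ) : P.coeff k ≤ P.eval 1 := by
  rw [eval_eq_sum_range]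
  simp only [one_pow, mul_one]
  by_cases h : k ∈ Finset.range (P.natDegree + 1)
  · exact Finset.single_le_sum (f := fun i => P.coeff i) (fun _ _ => Nat.zero_le _) h
  · have : P.coeff k = 0 := by
      apply coeff_eq_zero_of_natDegree_lt
      simpa using h
    rw [this]; exact Nat.zero_le _

theorem digit (B : ℕ) (k : ℕ) (P : ℕ[X]) (hB : P.eval 1 < B) :
    P.eval B / B ^ k % B = P.coeff k := by
  induction k generalizing P with
  | zero =>
    have h0 := coeff_le_eval_one P 0
    have h1 : P.eval B = P.divX.eval B * B + P.coeff 0 := by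
      conv_lhs => rw [← divX_mul_X_add P]
      simp
    rw [pow_zero, Nat.div_one, h1, Nat.mul_add_mod_of_lt (by omega)]
  | succ k ih =>
    have h0 := coeff_le_eval_one P 0
    have hB0 : 0 < B := by omega
    have h1 : P.eval B = P.divX.eval B * B + P.coeff 0 := by
      conv_lhs => rw [← divX_mul_X_add P]
      simp
    have h2 : P.eval 1 = P.divX.eval 1 + P.coeff 0 := by
      conv_lhs => rw [← divX_mul_X_add P]
      simp
    have h3 : P.eval B / B = P.divX.eval B := by
      rw [h1, mul_comm, Nat.mul_add_div hB0, Nat.div_eq_of_lt (by omega), add_zero]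
    rw [pow_succ', ← Nat.div_div_eq_div_mul, h3, ih P.divX (by omega), coeff_divX]

def absd (x y : ℕ) : ℕ := (x - y) + (y - x)

def Am (a b m : ℕ) : ℕ := max (absd (a * a) (m * m)) (absd (b * b) (m * m))

def PB (a b B : ℕ) : List ℕ → ℕ
  | [] => 1
  | m :: l => (Am a b m + 2 * b * B + B * B) * PB a b B l

def QB (G B : ℕ) : List ℕ → ℕ
  | [] => 1
  | m :: l => ((G * G - m * m) + 2 * G * B + B * B) * QB G B l

def cmpDigits (B : ℕ) : ℕ → ℕ → ℕ → Bool
  | 0, _, _ => true
  | n + 1, P, Q => Nat.ble (P % B) (Q % B) && cmpDigits B n (P / B) (Q / B)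

theorem cmpDigits_spec (B n P Q : ℕ) (h : cmpDigits B n P Q = true) (k : ℕ) (hk : k < n) :
    P / B ^ k % B ≤ Q / B ^ k % B := by
  induction n generalizing P Q k with
  | zero => omega
  | succ n ih =>
    simp only [cmpDigits, Bool.and_eq_true] at h
    rcases k with _ | k
    · simpa using Nat.le_of_ble_eq_true h.1
    · have := ih (P / B) (Q / B) h.2 k (by omega)
      rw [Nat.div_div_eq_div_mul, Nat.div_div_eq_div_mul, ← pow_succ'] at this
      exact this

/-- Natural quadratic block. -/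
noncomputable def quadN (a b : ℕ) : ℕ[X] := C a + C b * X + X ^ 2

theorem eval_PB (a b B : ℕ) (L : List ℕ) :
    ((L.map (fun m => quadN (Am a b m) (2 * b))).prod).eval B = PB a b B L := by
  induction L with
  | nil => simp [PB]
  | cons m L ih =>
    simp only [List.map_cons, List.prod_cons, eval_mul, ih, PB]
    congr 1
    unfold quadN
    simp
    ring

theorem eval_QB (G B : ℕ) (L : List ℕ) :
    ((L.map (fun m => quadN (G * G - m * m) (2 * G))).prod).eval B = QB G B L := by
  induction L with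
  | nil => simp [QB]
  | cons m L ih =>
    simp only [List.map_cons, List.prod_cons, eval_mul, ih, QB]
    congr 1
    unfold quadN
    simp
    ring

theorem coeff_quadN (α : ℕ → ℕ) (β : ℕ) (L : List ℕ) (k : ℕ) :
    (((L.map (fun m => quadN (α m) β)).prod).coeff k : ℝ) =
      ((L.map (fun m => quad (α m) β)).prod).coeff k := by
  have : (L.map (fun m => quad (α m) β)).prod
      = ((L.map (fun m => quadN (α m) β)).prod).map (Nat.castRingHom ℝ) := by
    rw [Polynomial.map_list_prod, List.map_map]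
    congr 1
    apply List.map_congr_left
    intro m _
    unfold quad quadN
    simp
  rw [this, coeff_map]
  rfl

theorem natDegree_quadN (α : ℕ → ℕ) (β : ℕ) (L : List ℕ) :
    ((L.map (fun m => quadN (α m) β)).prod).natDegree ≤ 2 * L.length := by
  induction L with
  | nil => simp
  | cons m L ih =>
    simp only [List.map_cons, List.prod_cons, List.length_cons]
    refine natDegree_mul_le.trans ?_
    have : (quadN (α m) β).natDegree ≤ 2 := by
      unfold quadN
      compute_degree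
    omega

def BB : ℕ := 2 ^ 480

def check (G : ℕ) (L : List ℕ) (a b : ℕ) : Bool :=
  Nat.ble (PB a b 1 L + 1) BB && cmpDigits BB (2 * L.length + 1) (PB a b BB L) (QB G BB L)

theorem check_spec (G : ℕ) (L : List ℕ) (a b : ℕ) (hQ : QB G 1 L < BB)
    (h : check G L a b = true) (k : ℕ) :
    (((L.map (fun m => quad (Am a b m : ℕ) (2 * b : ℕ))).prod).coeff k : ℝ) ≤
      ((L.map (fun m => quad (G * G - m * m : ℕ) (2 * G : ℕ))).prod).coeff k := by
  unfold check at h
  rw [Bool.and_eq_true] at h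
  have h1 : PB a b 1 L < BB := by
    have := Nat.le_of_ble_eq_true h.1
    omega
  rw [← coeff_quadN, ← coeff_quadN]
  have hP : (((L.map (fun m => quadN (Am a b m) (2 * b))).prod)).eval 1 < BB := by
    rw [eval_PB]; exact h1
  have hQ' : (((L.map (fun m => quadN (G * G - m * m) (2 * G))).prod)).eval 1 < BB := by
    rw [eval_QB]; exact hQ
  by_cases hk : k < 2 * L.length + 1
  · have := cmpDigits_spec _ _ _ _ h.2 k hk
    rw [← eval_PB, ← eval_QB, digit BB k _ hP, digit BB k _ hQ'] at this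
    exact_mod_cast this
  · have : (((L.map (fun m => quadN (Am a b m) (2 * b))).prod)).coeff k = 0 := by
      apply coeff_eq_zero_of_natDegree_lt
      have := natDegree_quadN (fun m => Am a b m) (2 * b) L
      omega
    rw [this]
    simp

def zs : List ℕ := [70, 222, 774, 775, 776, 777, 778, 779, 780, 781, 782, 783, 784, 785, 786, 787,
  788, 789, 790, 791]

def steps : List ℕ := [0, 100, 116, 124, 129, 132, 134, 136, 138, 140, 141, 142, 143, 144, 145, 147,
  149, 151, 154, 158, 163, 171, 187, 235, 265, 282, 294, 305, 317, 331, 351, 386, 472, 979]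

def checkAll (G : ℕ) (L : List ℕ) : List ℕ → Bool
  | [] => true
  | [_] => true
  | a :: b :: l => check G L a b && checkAll G L (b :: l)

theorem QB_ok : Nat.ble (QB 1000 1 zs + 1) BB = true := by decide +kernel

theorem checkAll_ok : checkAll 1000 zs steps = true := by decide +kernel

theorem checkAll_spec (G : ℕ) (L : List ℕ) (l : List ℕ) (a : ℕ)
    (h : checkAll G L (a :: l) = true) (x : ℝ) (hx : (a : ℝ) ≤ x) (hl : l ≠ [])
    (hx2 : x ≤ (((a :: l).getLast (by simp) : ℕ) : ℝ)) :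
    ∃ c d : ℕ, (c : ℝ) ≤ x ∧ x ≤ d ∧ check G L c d = true := by
  induction l generalizing a with
  | nil => exact absurd rfl hl
  | cons b l ih =>
    rw [checkAll, Bool.and_eq_true] at h
    by_cases hxb : x ≤ b
    · exact ⟨a, b, hx, hxb, h.1⟩
    · push Not at hxb
      rcases l with _ | ⟨b', l⟩
      · simp at hx2
        linarith
      · apply ih b h.2 hxb.le (by simp)
        rw [List.getLast_cons (by simp)] at hx2
        exact hx2

theorem absd_cast (x y : ℕ) : ((absd x y : ℕ) : ℝ) = |(x : ℝ) - y| := by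
  unfold absd
  rcases le_total x y with h | h
  · rw [Nat.sub_eq_zero_of_le h, zero_add, Nat.cast_sub h, abs_sub_comm, abs_of_nonneg]
    have : (x : ℝ) ≤ y := by exact_mod_cast h
    linarith
  · rw [Nat.sub_eq_zero_of_le h, add_zero, Nat.cast_sub h, abs_of_nonneg]
    have : (y : ℝ) ≤ x := by exact_mod_cast h
    linarith

theorem Am_bound (c d m : ℕ) (x : ℝ) (h1 : (c : ℝ) ≤ |x|) (h2 : |x| ≤ d) :
    |x ^ 2 - (m : ℝ) ^ 2| ≤ (Am c d m : ℕ) := by
  unfold Am
  rw [Nat.cast_max, absd_cast, absd_cast]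
  push_cast
  have hx : x ^ 2 = |x| ^ 2 := (sq_abs x).symm
  have hc : (0 : ℝ) ≤ c := Nat.cast_nonneg c
  have h3 : (c : ℝ) * c ≤ x ^ 2 := by rw [hx]; nlinarith
  have h4 : x ^ 2 ≤ (d : ℝ) * d := by rw [hx]; nlinarith [abs_nonneg x]
  rw [abs_le]
  constructor
  · have h5 : -((c : ℝ) * c - m * m) ≤ |(c : ℝ) * c - m * m| := neg_le_abs _
    have h6 := le_max_left |(c : ℝ) * c - m * m| |(d : ℝ) * d - m * m|
    nlinarith
  · have h5 : ((d : ℝ) * d - m * m) ≤ |(d : ℝ) * d - m * m| := le_abs_self _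
    have h6 := le_max_right |(c : ℝ) * c - m * m| |(d : ℝ) * d - m * m|
    nlinarith

theorem zs_le : ∀ m ∈ zs, m ≤ 791 := by decide

theorem map_quad_cast : zs.map (fun m : ℕ => quad ((1000 * 1000 - m * m : ℕ) : ℝ) ((2 * 1000 : ℕ) : ℝ))
        = zs.map (fun m : ℕ => quad ((1000 : ℝ) ^ 2 - (m : ℝ) ^ 2) (2 * 1000)) := by
  apply List.map_congr_left
  intro m hm
  have h := zs_le m hm
  have h2 : m * m ≤ 1000 * 1000 := Nat.mul_le_mul (by omega) (by omega)
  have h3 : ((1000 * 1000 - m * m : ℕ) : ℝ) = (1000 : ℝ) ^ 2 - (m : ℝ) ^ 2 := by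
    rw [Nat.cast_sub h2]
    push_cast
    ring
  have h4 : ((2 * 1000 : ℕ) : ℝ) = 2 * 1000 := by push_cast; ring
  rw [h3, h4]

/-- The main domination statement. -/
theorem dom_main (x : ℝ) (hx : |x| ≤ 1000) (k : ℕ) :
    |((zs.map (fun m : ℕ => quad (x ^ 2 - (m : ℝ) ^ 2) (2 * x))).prod).coeff k| ≤
      ((zs.map (fun m : ℕ => quad ((1000 : ℝ) ^ 2 - (m : ℝ) ^ 2) (2 * 1000))).prod).coeff k := by
  by_cases hx2 : |x| ≤ 979
  · obtain ⟨c, d, h1, h2, h3⟩ := checkAll_spec 1000 zs _ _ checkAll_ok |x| (by simp)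
      (by simp) (by simpa [steps] using hx2)
    have hQ : QB 1000 1 zs < BB := by
      have := Nat.le_of_ble_eq_true QB_ok
      omega
    have h4 := check_spec 1000 zs c d hQ h3 k
    have h5 := dom_prod zs (fun m => x ^ 2 - (m : ℝ) ^ 2) (fun m => ((Am c d m : ℕ) : ℝ)) (2 * x)
      ((2 * d : ℕ) : ℝ) (fun m _ => Am_bound c d m x h1 h2) (by
        rw [abs_mul]; push_cast
        rw [abs_of_pos (by norm_num : (0 : ℝ) < 2)]
        linarith) k
    refine h5.trans (h4.trans (le_of_eq ?_))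
    rw [map_quad_cast]
  · push Not at hx2
    apply dom_prod
    · intro m hm
      have hm2 : (m : ℝ) ≤ 791 := by exact_mod_cast zs_le m hm
      have hm0 : (0 : ℝ) ≤ m := Nat.cast_nonneg m
      have h3 : x ^ 2 = |x| ^ 2 := (sq_abs x).symm
      have h4 : x ^ 2 ≤ 1000 ^ 2 := by rw [h3]; nlinarith [abs_nonneg x]
      have h5 : (979 : ℝ) ^ 2 ≤ x ^ 2 := by rw [h3]; nlinarith [abs_nonneg x]
      rw [abs_le]
      constructor <;> nlinarith
    · rw [abs_mul, abs_of_pos (by norm_num : (0 : ℝ) < 2)]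
      linarith

/-- The integer-scaled polynomial. -/
noncomputable def F : ℝ[X] := (zs.map (fun m : ℕ => X ^ 2 - C ((m : ℝ) ^ 2))).prod

theorem taylor_F (x : ℝ) : taylor x F = (zs.map (fun m : ℕ => quad (x ^ 2 - (m : ℝ) ^ 2) (2 * x))).prod := by
  unfold F
  generalize zs = L
  induction L with
  | nil => simp
  | cons m L ih =>
    simp only [List.map_cons, List.prod_cons, taylor_mul, ih]
    congr 1
    unfold quad
    simp only [taylor_apply, pow_comp, X_comp, C_comp, sub_comp, C_sub, C_pow, C_mul, map_ofNat]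
    ring

theorem iter_deriv_eval (x : ℝ) (P : ℝ[X]) (k : ℕ) :
    (derivative^[k] P).eval x = (k.factorial : ℝ) * (taylor x P).coeff k := by
  rw [taylor_coeff, ← factorial_smul_hasseDeriv]
  simp

theorem condA_F (x : ℝ) (hx : |x| ≤ 1000) (k : ℕ) :
    |(derivative^[k] F).eval x| ≤ (derivative^[k] F).eval 1000 := by
  rw [iter_deriv_eval, iter_deriv_eval, abs_mul, Nat.abs_cast, taylor_F, taylor_F]
  exact mul_le_mul_of_nonneg_left (dom_main x hx k) (Nat.cast_nonneg _)

theorem iter_deriv_comp (s : ℝ) (P : ℝ[X]) (k : ℕ) :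
    derivative^[k] (P.comp (C s * X)) = C (s ^ k) * (derivative^[k] P).comp (C s * X) := by
  induction k with
  | zero => simp
  | succ k ih =>
    rw [Function.iterate_succ_apply', ih, Function.iterate_succ_apply', derivative_mul,
      derivative_C, zero_mul, zero_add, derivative_comp]
    simp only [derivative_mul, derivative_C, zero_mul, zero_add, derivative_X, mul_one, C_mul, pow_succ]
    ring

/-- The zeros. -/
def ints : List ℤ := zs.map (fun m : ℕ => (m : ℤ)) ++ zs.map (fun m : ℕ => -(m : ℤ))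

noncomputable def S : Finset ℝ := ints.toFinset.image (fun z : ℤ => (z : ℝ) / 1000)

theorem poly_S : poly S = (zs.map (fun m : ℕ => X ^ 2 - C (((m : ℝ) / 1000) ^ 2))).prod := by
  unfold poly S
  rw [Finset.prod_image (by
    intro a _ b _ hab
    have : (a : ℝ) = b := by
      have := hab
      simp only at this
      field_simp at this
      exact this
    exact_mod_cast this)]
  rw [List.prod_toFinset _ (by decide)]
  unfold ints
  rw [List.map_append, List.prod_append, List.map_map, List.map_map, ← List.prod_map_mul]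
  congr 1
  apply List.map_congr_left
  intro m _
  simp only [Function.comp, Int.cast_natCast, Int.cast_neg, neg_div, C_neg, C_pow]
  ring

theorem poly_S_eq : poly S = C ((1 / 1000) ^ 40) * F.comp (C 1000 * X) := by
  rw [poly_S]
  unfold F
  have hlen : (40 : ℕ) = 2 * zs.length := by decide
  rw [hlen]
  generalize zs = L
  induction L with
  | nil => simp
  | cons m L ih =>
    simp only [List.map_cons, List.prod_cons, List.length_cons, ih, mul_comp]
    have h1 : (X ^ 2 - C (((m : ℝ) / 1000) ^ 2) : ℝ[X])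
        = C ((1 / 1000) ^ 2) * (X ^ 2 - C ((m : ℝ) ^ 2)).comp (C 1000 * X) := by
      have e1 : (C ((1 / 1000 : ℝ) ^ 2) * C 1000 ^ 2 : ℝ[X]) = 1 := by
        rw [← C_pow, ← C_mul]
        norm_num
      have e2 : (C (((m : ℝ) / 1000) ^ 2) : ℝ[X]) = C ((1 / 1000 : ℝ) ^ 2) * C ((m : ℝ) ^ 2) := by
        rw [← C_mul]
        congr 1
        ring
      rw [e2]
      simp only [sub_comp, pow_comp, X_comp, C_comp]
      linear_combination (-X ^ 2) * e1
    rw [h1, mul_add, mul_one, pow_add, C_mul]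
    ring

theorem condA_S : CondA (poly S) := by
  intro k _ x hx1 hx2
  have h1 : ∀ t : ℝ, (derivative^[k] (poly S)).eval t
      = ((1 / 1000) ^ 40 * 1000 ^ k) * (derivative^[k] F).eval (1000 * t) := by
    intro t
    rw [poly_S_eq, iterate_derivative_C_mul, iter_deriv_comp]
    simp
    ring
  rw [h1, h1, abs_mul, abs_of_pos (by positivity)]
  apply mul_le_mul_of_nonneg_left _ (by positivity)
  rw [mul_one]
  apply condA_F
  rw [abs_mul, abs_of_pos (by norm_num : (0 : ℝ) < 1000)]
  have : |x| ≤ 1 := abs_le.mpr ⟨by linarith, by linarith⟩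
  linarith

theorem prod_ineq : Nat.blt (zs.map (fun m : ℕ => ((1000 - m) ^ 2 + 49 ^ 2) * ((1000 + m) ^ 2 + 49 ^ 2))).prod
    (zs.map (fun m : ℕ => (49 ^ 2 + m ^ 2) ^ 2)).prod = true := by decide +kernel

theorem norm_aeval (z : ℂ) (g : ℕ → ℕ)
    (hg : ∀ m ∈ zs, ‖z ^ 2 - ((m : ℂ) / 1000) ^ 2‖ ^ 2 = (g m : ℝ) / 1000 ^ 4) :
    ‖aeval z (poly S)‖ ^ 2 = ((zs.map g).prod : ℕ) / (1000 ^ 4) ^ 20 := by
  rw [poly_S]
  have hlen : (20 : ℕ) = zs.length := by decide
  rw [hlen]
  revert hg
  generalize zs = L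
  intro hg
  induction L with
  | nil => simp
  | cons m L ih =>
    simp only [List.map_cons, List.prod_cons, List.length_cons, map_mul, norm_mul, mul_pow]
    rw [ih (fun m hm => hg m (by simp [hm]))]
    have := hg m (by simp)
    have h2 : aeval z (X ^ 2 - C (((m : ℝ) / 1000) ^ 2)) = z ^ 2 - ((m : ℂ) / 1000) ^ 2 := by
      simp
    rw [h2, this]
    rw [Nat.cast_mul, div_mul_div_comm, ← pow_succ' ((1000 : ℝ) ^ 4)]

theorem not_propD_S : ¬ PropD (poly S) := by
  intro h
  have h1 := h 0 (49 / 1000) (by norm_num) (by norm_num)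
  have e0 := norm_aeval ((0 : ℝ) + ((49 / 1000 : ℝ) : ℂ) * Complex.I) (fun m => (49 ^ 2 + m ^ 2) ^ 2) (by
    intro m _
    have : ((((0 : ℝ) : ℂ) + ((49 / 1000 : ℝ) : ℂ) * Complex.I) ^ 2 - ((m : ℂ) / 1000) ^ 2)
        = ((-(49 ^ 2 + (m : ℝ) ^ 2) / 1000 ^ 2 : ℝ) : ℂ) := by
      push_cast
      ring_nf
      rw [Complex.I_sq]
      ring
    rw [this, Complex.norm_real, Real.norm_eq_abs, sq_abs]
    push_cast
    ring)
  have e1 := norm_aeval ((1 : ℂ) + ((49 / 1000 : ℝ) : ℂ) * Complex.I)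
    (fun m => ((1000 - m) ^ 2 + 49 ^ 2) * ((1000 + m) ^ 2 + 49 ^ 2)) (by
    intro m hm
    have hm' := zs_le m hm
    have hf : ((1 : ℂ) + ((49 / 1000 : ℝ) : ℂ) * Complex.I) ^ 2 - ((m : ℂ) / 1000) ^ 2
      = (((1 - (m : ℝ) / 1000 : ℝ) : ℂ) + ((49 / 1000 : ℝ) : ℂ) * Complex.I) *
        (((1 + (m : ℝ) / 1000 : ℝ) : ℂ) + ((49 / 1000 : ℝ) : ℂ) * Complex.I) := by
      push_cast
      ring
    rw [hf, norm_mul, mul_pow, ← Complex.normSq_eq_norm_sq, ← Complex.normSq_eq_norm_sq,
      Complex.normSq_add_mul_I, Complex.normSq_add_mul_I]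
    push_cast [Nat.cast_sub (by omega : m ≤ 1000)]
    ring)
  have h2 : ‖aeval (((0 : ℝ) : ℂ) + ((49 / 1000 : ℝ) : ℂ) * Complex.I) (poly S)‖ ^ 2
      ≤ ‖aeval ((1 : ℂ) + ((49 / 1000 : ℝ) : ℂ) * Complex.I) (poly S)‖ ^ 2 := by
    apply pow_le_pow_left₀ (norm_nonneg _) h1
  rw [e0, e1, div_le_div_iff_of_pos_right (by positivity)] at h2
  have h3 : (zs.map (fun m : ℕ => (49 ^ 2 + m ^ 2) ^ 2)).prod
      ≤ (zs.map (fun m : ℕ => ((1000 - m) ^ 2 + 49 ^ 2) * ((1000 + m) ^ 2 + 49 ^ 2))).prod := by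
    exact_mod_cast h2
  have h4 := prod_ineq
  rw [Nat.blt_eq] at h4
  omega

/-- There is a monic polynomial with simple real zeros forming a nonempty finite subset of `[-1, 1]`
symmetric about `0` that satisfies condition (a) but does not have property (D). -/
theorem result : ∃ S : Finset ℝ, S.Nonempty ∧ (∀ a ∈ S, -1 ≤ a ∧ a ≤ 1) ∧ (∀ a ∈ S, -a ∈ S) ∧
    CondA (poly S) ∧ ¬ PropD (poly S) := by
  refine ⟨S, ?_, ?_, ?_, condA_S, not_propD_S⟩
  · refine ⟨(70 : ℝ) / 1000, ?_⟩
    unfold S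
    rw [Finset.mem_image]
    exact ⟨70, by decide, by norm_num⟩
  · intro a ha
    unfold S at ha
    rw [Finset.mem_image] at ha
    obtain ⟨z, hz, rfl⟩ := ha
    have : ∀ z ∈ ints, -1000 ≤ z ∧ z ≤ 1000 := by decide
    have h := this z (by simpa using hz)
    have h1 : (-1000 : ℝ) ≤ z := by exact_mod_cast h.1
    have h2 : (z : ℝ) ≤ 1000 := by exact_mod_cast h.2
    constructor
    · rw [le_div_iff₀ (by norm_num)]; linarith
    · rw [div_le_iff₀ (by norm_num)]; linarith
  · intro a ha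
    unfold S at ha ⊢
    rw [Finset.mem_image] at ha ⊢
    obtain ⟨z, hz, rfl⟩ := ha
    have : ∀ z ∈ ints, -z ∈ ints := by decide
    refine ⟨-z, ?_, ?_⟩
    · rw [List.mem_toFinset] at hz ⊢
      exact this z hz
    · push_cast
      ring

end Pool.Agent.Results.MP_1c7d4c_an.CondANotD
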