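import Mathlib
import Pool.Agent.LibH46.CondBKey

set_option autoImplicit false
open Polynomial Pool.Agent.LibH46.CondBKey

namespace Pool.Agent.Results.MP_1c7d4c_an.CondBImpliesD

/-- The monic real polynomial whose zeros are simple and form the finite set `S`. -/
noncomputable def poly (S : Finset ℝ) : ℝ[X] := ∏ a ∈ S, (X - C a)

/-- Condition (b): the values of `|Q|` at `0`, at the zeros of `Q'` in `(0,1)` and at `1` increase
(weakly). -/
def CondB (Q : ℝ[X]) : Prop :=
  ∀ s t : ℝ, (s = 0 ∨ (0 < s ∧ s < 1 ∧ (derivative Q).eval s = 0)) →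
    (t = 1 ∨ (0 < t ∧ t < 1 ∧ (derivative Q).eval t = 0)) → s < t →
    |Q.eval s| ≤ |Q.eval t|

/-- Property (D). -/
def PropD (Q : ℝ[X]) : Prop :=
  ∀ x y : ℝ, -1 ≤ x → x ≤ 1 →
    ‖aeval ((x : ℂ) + y * Complex.I) Q‖ ≤ ‖aeval ((1 : ℂ) + y * Complex.I) Q‖

theorem poly_eval (S : Finset ℝ) (x : ℝ) : (poly S).eval x = ∏ a ∈ S, (x - a) := by
  unfold poly
  rw [eval_prod]
  simp

theorem poly_aeval (S : Finset ℝ) (z : ℂ) : aeval z (poly S) = ∏ a ∈ S, (z - a) := by
  unfold poly
  rw [map_prod]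
  simp

theorem poly_abs_neg (S : Finset ℝ) (hsym : ∀ a ∈ S, -a ∈ S) (x : ℝ) :
    |(poly S).eval (-x)| = |(poly S).eval x| := by
  rw [poly_eval, poly_eval, Finset.abs_prod, Finset.abs_prod]
  apply Finset.prod_nbij' (fun a => -a) (fun a => -a) (fun a ha => hsym a ha) (fun a ha => hsym a ha)
  · intro a _; simp
  · intro a _; simp
  · intro a _
    rw [← abs_neg]
    congr 1
    ring

theorem norm_aeval_neg (S : Finset ℝ) (hsym : ∀ a ∈ S, -a ∈ S) (z : ℂ) :
    ‖aeval (-z) (poly S)‖ = ‖aeval z (poly S)‖ := by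
  rw [poly_aeval, poly_aeval, norm_prod, norm_prod]
  apply Finset.prod_nbij' (fun a => -a) (fun a => -a) (fun a ha => hsym a ha) (fun a ha => hsym a ha)
  · intro a _; simp
  · intro a _; simp
  · intro a _
    rw [← norm_neg]
    congr 1
    push_cast
    ring

theorem norm_aeval_conj (S : Finset ℝ) (x y : ℝ) :
    ‖aeval ((x : ℂ) + (-y : ℝ) * Complex.I) (poly S)‖ = ‖aeval ((x : ℂ) + y * Complex.I) (poly S)‖ := by
  rw [poly_aeval, poly_aeval, norm_prod, norm_prod]
  apply Finset.prod_congr rfl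
  intro a _
  have : ((x : ℂ) + (-y : ℝ) * Complex.I - a) = (starRingEnd ℂ) ((x : ℂ) + y * Complex.I - a) := by
    simp
  rw [this, RCLike.norm_conj]

theorem crit_of_locmax (Q : ℝ[X]) (m : ℝ) (h : IsLocalMax (fun x => (Q.eval x) ^ 2) m)
    (hne : Q.eval m ≠ 0) : (derivative Q).eval m = 0 := by
  have h0 : (fun x => (Q.eval x) ^ 2) = fun x => (Q ^ 2).eval x := by
    ext x
    rw [eval_pow]
  rw [h0] at h
  have h1 := h.deriv_eq_zero
  rw [Polynomial.deriv, derivative_pow, eval_mul, eval_mul, eval_C, eval_pow] at h1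
  rcases mul_eq_zero.1 h1 with h3 | h3
  · rcases mul_eq_zero.1 h3 with h4 | h4
    · norm_num at h4
    · norm_num at h4
      exact absurd h4 hne
  · exact h3

theorem max_at (Q : ℝ[X]) (heven : ∀ x, |Q.eval (-x)| = |Q.eval x|) (hB : CondB Q) (t : ℝ)
    (ht : t = 1 ∨ (0 < t ∧ t < 1 ∧ (derivative Q).eval t = 0)) (x : ℝ) (hx : |x| ≤ t) :
    |Q.eval x| ≤ |Q.eval t| := by
  have ht0 : 0 < t := by
    rcases ht with h | h
    · rw [h]; norm_num
    · exact h.1
  have ht1 : t ≤ 1 := by
    rcases ht with h | h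
    · rw [h]
    · exact h.2.1.le
  have habs : abs (Q.eval x) = abs (Q.eval (abs x)) := by
    rcases abs_choice x with h | h
    · exact congrArg (fun v => abs (Q.eval v)) h.symm
    · have h2 : abs (Q.eval (abs x)) = abs (Q.eval (-x)) := congrArg (fun v => abs (Q.eval v)) h
      rw [h2, heven]
  rw [habs]
  set u := |x| with hu
  have hu0 : 0 ≤ u := abs_nonneg x
  obtain ⟨m, hm, hmax⟩ := isCompact_Icc.exists_isMaxOn (⟨0, le_rfl, ht0.le⟩ : (Set.Icc 0 t).Nonempty)
    (f := fun x => (Q.eval x) ^ 2) (by fun_prop)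
  have h1 : (Q.eval u) ^ 2 ≤ (Q.eval m) ^ 2 := hmax ⟨hu0, hx⟩
  have h1' : |Q.eval u| ≤ |Q.eval m| := sq_le_sq.1 h1
  refine h1'.trans ?_
  rcases eq_or_lt_of_le hm.2 with hmt | hmt
  · rw [hmt]
  rcases eq_or_lt_of_le hm.1 with hm0 | hm0
  · rw [← hm0]
    exact hB 0 t (Or.inl rfl) ht ht0
  by_cases hne : Q.eval m = 0
  · rw [hne, abs_zero]; exact abs_nonneg _
  have hloc : IsLocalMax (fun x => (Q.eval x) ^ 2) m :=
    hmax.isLocalMax (Icc_mem_nhds hm0 hmt)
  have hcrit := crit_of_locmax Q m hloc hne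
  exact hB m t (Or.inr ⟨hm0, lt_of_lt_of_le hmt ht1, hcrit⟩) ht hmt

theorem max_strict (Q : ℝ[X]) (heven : ∀ x, |Q.eval (-x)| = |Q.eval x|) (hB : CondB Q) (t : ℝ)
    (ht : t = 1 ∨ (0 < t ∧ t < 1 ∧ (derivative Q).eval t = 0)) (hne : Q.eval t ≠ 0)
    (x : ℝ) (hx : |x| < t) (hc : (derivative Q).eval x ≠ 0) :
    |Q.eval x| < |Q.eval t| := by
  refine lt_of_le_of_ne (max_at Q heven hB t ht x hx.le) ?_
  intro heq
  apply hc
  apply crit_of_locmax Q x
  · have hopen : Set.Ioo (-t) t ∈ nhds x := Ioo_mem_nhds (abs_lt.1 hx).1 (abs_lt.1 hx).2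
    filter_upwards [hopen] with v hv
    have := max_at Q heven hB t ht v (abs_le.2 ⟨hv.1.le, hv.2.le⟩)
    rw [← heq] at this
    exact sq_le_sq.2 this
  · intro h0
    rw [h0, abs_zero] at heq
    exact hne (abs_eq_zero.1 heq.symm)

theorem eval_one_ne (S : Finset ℝ) (hsym : ∀ a ∈ S, -a ∈ S) (hB : CondB (poly S)) :
    (poly S).eval 1 ≠ 0 := by
  intro h
  have h1 : ∀ x ∈ Set.Icc (0:ℝ) 1, x ∈ S := by
    intro x hx
    have := max_at (poly S) (poly_abs_neg S hsym) hB 1 (Or.inl rfl) x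
      (abs_le.2 ⟨by linarith [hx.1], hx.2⟩)
    rw [h, abs_zero] at this
    have h2 : (poly S).eval x = 0 := abs_eq_zero.1 (le_antisymm this (abs_nonneg _))
    rw [poly_eval, Finset.prod_eq_zero_iff] at h2
    obtain ⟨a, ha, hax⟩ := h2
    have : x = a := by linarith
    rw [this]; exact ha
  have h2 : (Set.Icc (0:ℝ) 1).Finite := S.finite_toSet.subset h1
  exact (Set.Icc_infinite (by norm_num : (0:ℝ) < 1)) h2

/-- Existence of the test points. -/
theorem test_point (S : Finset ℝ) (hmem : ∀ a ∈ S, -1 ≤ a ∧ a ≤ 1) (c : ℝ) (hc0 : 0 < c)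
    (i : ℕ) (hi : 1 ≤ i) (hiN : i < (S.filter (fun a => c < a)).card) :
    ∃ t, c < t ∧ t ∉ S ∧ (S.filter (fun a => t < a)).card = i ∧
      (0 < t ∧ t < 1 ∧ (derivative (poly S)).eval t = 0) := by
  set R := S.filter (fun a => c < a) with hR
  obtain ⟨N, hN⟩ : ∃ N, R.card = N := ⟨_, rfl⟩
  rw [hN] at hiN
  set emb := R.orderEmbOfFin hN with hemb
  have hmemR : ∀ j, emb j ∈ R := fun j => R.orderEmbOfFin_mem hN j
  set a := emb ⟨N - i - 1, by omega⟩ with ha
  set b := emb ⟨N - i, by omega⟩ with hb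
  have hab : a < b := by
    rw [ha, hb]
    apply emb.strictMono
    rw [Fin.lt_def]
    simp only
    omega
  have haS : a ∈ S := (Finset.mem_filter.1 (hmemR _)).1
  have hbS : b ∈ S := (Finset.mem_filter.1 (hmemR _)).1
  have hac : c < a := (Finset.mem_filter.1 (hmemR _)).2
  have hz : ∀ v ∈ S, (poly S).eval v = 0 := by
    intro v hv
    rw [poly_eval]
    exact Finset.prod_eq_zero hv (sub_self v)
  obtain ⟨t, ht, htd⟩ := exists_deriv_eq_zero hab (f := fun x => (poly S).eval x)
    (poly S).continuous.continuousOn (by rw [hz a haS, hz b hbS])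
  rw [Polynomial.deriv] at htd
  have hct : c < t := hac.trans ht.1
  have hgap : ∀ j, emb j ≤ a ∨ b ≤ emb j := by
    intro j
    rcases Nat.lt_or_ge (j : ℕ) (N - i) with h | h
    · left
      rw [ha]
      apply emb.monotone
      rw [Fin.le_def]
      simp only
      omega
    · right
      rw [hb]
      apply emb.monotone
      rw [Fin.le_def]
      exact h
  have hsurj : ∀ v ∈ R, ∃ j, emb j = v := by
    intro v hv
    have := Finset.range_orderEmbOfFin R hN
    have h2 : v ∈ Set.range emb := by rw [this]; exact hv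
    exact h2
  refine ⟨t, hct, ?_, ?_, ⟨by linarith, lt_of_lt_of_le ht.2 (hmem b hbS).2, htd⟩⟩
  · intro htS
    obtain ⟨j, hj⟩ := hsurj t (Finset.mem_filter.2 ⟨htS, hct⟩)
    rcases hgap j with h | h
    · rw [hj] at h; linarith [ht.1]
    · rw [hj] at h; linarith [ht.2]
  · have h1 : S.filter (fun a => t < a)
        = (Finset.Ici (⟨N - i, by omega⟩ : Fin N)).map emb.toEmbedding := by
      ext v
      rw [Finset.mem_filter, Finset.mem_map]
      constructor
      · rintro ⟨hv, htv⟩
        obtain ⟨j, hj⟩ := hsurj v (Finset.mem_filter.2 ⟨hv, hct.trans htv⟩)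
        refine ⟨j, ?_, hj⟩
        rw [Finset.mem_Ici]
        rcases hgap j with h | h
        · rw [hj] at h; linarith [ht.1]
        · exact emb.le_iff_le.1 h
      · rintro ⟨j, hj, rfl⟩
        rw [Finset.mem_Ici] at hj
        have h2 := emb.monotone hj
        refine ⟨(Finset.mem_filter.1 (hmemR j)).1, ?_⟩
        exact lt_of_lt_of_le ht.2 h2
    rw [h1, Finset.card_map, Fin.card_Ici]
    simp only
    omega

theorem generic_case (S : Finset ℝ) (hne : S.Nonempty) (hmem : ∀ a ∈ S, -1 ≤ a ∧ a ≤ 1)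
    (hsym : ∀ a ∈ S, -a ∈ S) (hB : CondB (poly S)) (x : ℝ) (hx0 : 0 ≤ x) (hx1 : x < 1)
    (hg1 : (1 + x) / 2 ∉ S)
    (hg2 : ∀ t, (t = 1 ∨ (derivative (poly S)).eval t = 0) →
      (derivative (poly S)).eval (1 + x - t) ≠ 0) (y : ℝ) (hy : 0 < y) :
    ‖aeval ((x : ℂ) + y * Complex.I) (poly S)‖ < ‖aeval ((1 : ℂ) + y * Complex.I) (poly S)‖ := by
  set c := (1 + x) / 2 with hc
  set s := (1 - x) / 2 with hs
  have hc0 : 0 < c := by rw [hc]; linarith
  have hs0 : 0 < s := by rw [hs]; linarith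
  have hc1 : c < 1 := by rw [hc]; linarith
  have heven := poly_abs_neg S hsym
  have h1S : (1:ℝ) ∉ S := by
    intro h
    apply eval_one_ne S hsym hB
    rw [poly_eval]
    exact Finset.prod_eq_zero h (sub_self _)
  obtain ⟨N, hN⟩ : ∃ N, N = (S.filter (fun a => c < a)).card := ⟨_, rfl⟩
  have hex : ∀ i, ∃ t, (i = 0 → t = 1) ∧ (i < max N 1 → c < t ∧ t ∉ S ∧
      (S.filter (fun a => t < a)).card = i ∧
      (t = 1 ∨ (0 < t ∧ t < 1 ∧ (derivative (poly S)).eval t = 0))) := by
    intro i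
    rcases Nat.eq_zero_or_pos i with hi | hi
    · refine ⟨1, fun _ => rfl, fun _ => ⟨hc1, h1S, ?_, Or.inl rfl⟩⟩
      rw [hi, Finset.card_eq_zero, Finset.filter_eq_empty_iff]
      intro a ha
      exact not_lt.2 (hmem a ha).2
    · by_cases hiN : i < N
      · obtain ⟨t, h1, h2, h3, h4⟩ := test_point S hmem c hc0 i hi (by rw [← hN]; exact hiN)
        exact ⟨t, fun h => by omega, fun _ => ⟨h1, h2, h3, Or.inr h4⟩⟩
      · exact ⟨1, fun _ => rfl, fun h => by omega⟩
  choose t ht0 ht using hex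
  have h2N : 2 * N ≤ S.card := by
    have h1 : (S.filter (fun a => a < -c)).card = N := by
      rw [hN]
      apply Finset.card_nbij' (fun a => -a) (fun a => -a)
      · intro a ha
        have ha' := Finset.mem_filter.1 (Finset.mem_coe.1 ha)
        exact Finset.mem_coe.2 (Finset.mem_filter.2 ⟨hsym a ha'.1, by linarith [ha'.2]⟩)
      · intro a ha
        have ha' := Finset.mem_filter.1 (Finset.mem_coe.1 ha)
        exact Finset.mem_coe.2 (Finset.mem_filter.2 ⟨hsym a ha'.1, by linarith [ha'.2]⟩)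
      · intro a _; simp
      · intro a _; simp
    have hdisj : Disjoint (S.filter (fun a => c < a)) (S.filter (fun a => a < -c)) := by
      rw [Finset.disjoint_filter]
      intro a _ h1 h2
      linarith
    have h2 := Finset.card_union_of_disjoint hdisj
    have h3 : (S.filter (fun a => c < a)) ∪ (S.filter (fun a => a < -c)) ⊆ S :=
      Finset.union_subset (Finset.filter_subset _ _) (Finset.filter_subset _ _)
    have h4 := Finset.card_le_card h3
    rw [h2, ← hN, h1] at h4
    omega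
  have hkey := key S c s hs0 hg1 N hN h2N hne.card_pos t
    (by rw [ht0 0 rfl, hc, hs]; ring)
    (fun i hi => (ht i hi).1) (fun i hi => (ht i hi).2.1) (fun i hi => (ht i hi).2.2.1)
    (by
      intro i hi
      obtain ⟨h1, h2, h3, h4⟩ := ht i hi
      have h5 : |(poly S).eval (2 * c - t i)| < |(poly S).eval (t i)| := by
        apply max_strict (poly S) heven hB (t i) h4
        · rw [poly_eval, Finset.prod_ne_zero_iff]
          intro a ha h
          apply h2
          have : t i = a := by linarith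
          rw [this]; exact ha
        · rw [abs_lt]
          constructor <;> linarith
        · have e1 : 2 * c - t i = 1 + x - t i := by rw [hc]; ring
          rw [e1]
          apply hg2
          rcases h4 with h | h
          · exact Or.inl h
          · exact Or.inr h.2.2
      rw [poly_eval, poly_eval] at h5
      exact h5) y hy
  have e1 : c - s = x := by rw [hc, hs]; ring
  have e2 : c + s = 1 := by rw [hc, hs]; ring
  rw [e1, e2] at hkey
  rw [poly_aeval, poly_aeval]
  push_cast at hkey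
  exact hkey

theorem derivative_ne_zero (S : Finset ℝ) (hne : S.Nonempty) : derivative (poly S) ≠ 0 := by
  intro h
  have h1 : (poly S).natDegree = S.card := by
    unfold poly
    rw [natDegree_prod_of_monic _ _ (fun a _ => monic_X_sub_C a),
      Finset.sum_congr rfl (fun a _ => natDegree_X_sub_C a)]
    simp
  have h2 := derivative_eq_zero.1 h
  have := hne.card_pos
  omega

theorem nonneg_case (S : Finset ℝ) (hne : S.Nonempty) (hmem : ∀ a ∈ S, -1 ≤ a ∧ a ≤ 1)
    (hsym : ∀ a ∈ S, -a ∈ S) (hB : CondB (poly S)) (x : ℝ) (hx0 : 0 ≤ x) (hx1 : x < 1)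
    (y : ℝ) (hy : 0 < y) :
    ‖aeval ((x : ℂ) + y * Complex.I) (poly S)‖ ≤ ‖aeval ((1 : ℂ) + y * Complex.I) (poly S)‖ := by
  classical
  set Z := (derivative (poly S)).roots.toFinset with hZ
  have hmemZ : ∀ r, (derivative (poly S)).eval r = 0 → r ∈ Z := by
    intro r hr
    rw [hZ, Multiset.mem_toFinset, mem_roots (derivative_ne_zero S hne)]
    exact hr
  set B : Finset ℝ := S.image (fun a => 2 * a - 1) ∪ (Z ×ˢ insert 1 Z).image (fun p => p.1 + p.2 - 1)
    with hBdef
  have hgood : ∀ v, 0 ≤ v → v < 1 → v ∉ B →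
      ‖aeval ((v : ℂ) + y * Complex.I) (poly S)‖ ≤ ‖aeval ((1 : ℂ) + y * Complex.I) (poly S)‖ := by
    intro v hv0 hv1 hvB
    apply le_of_lt
    apply generic_case S hne hmem hsym hB v hv0 hv1 _ _ y hy
    · intro h
      apply hvB
      rw [hBdef, Finset.mem_union]
      left
      rw [Finset.mem_image]
      exact ⟨_, h, by ring⟩
    · intro t ht h
      apply hvB
      rw [hBdef, Finset.mem_union]
      right
      rw [Finset.mem_image]
      refine ⟨(1 + v - t, t), ?_, by simp only; ring⟩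
      rw [Finset.mem_product]
      refine ⟨hmemZ _ h, ?_⟩
      simp only
      rw [Finset.mem_insert]
      rcases ht with h' | h'
      · exact Or.inl h'
      · exact Or.inr (hmemZ _ h')
  by_contra hcon
  rw [not_le] at hcon
  have hcont : Continuous (fun v : ℝ => ‖aeval ((v : ℂ) + y * Complex.I) (poly S)‖) := by
    apply Continuous.norm
    have : Continuous (fun v : ℝ => ((v : ℂ) + y * Complex.I)) := by fun_prop
    exact (poly S).continuous_aeval.comp this
  have hev : ∀ᶠ v : ℝ in nhds x, ‖aeval ((1 : ℂ) + y * Complex.I) (poly S)‖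
      < ‖aeval ((v : ℂ) + y * Complex.I) (poly S)‖ := hcont.continuousAt.eventually (lt_mem_nhds hcon)
  obtain ⟨δ, hδ, hball⟩ := Metric.eventually_nhds_iff.1 hev
  set η := min δ (1 - x) with hη
  have hη0 : 0 < η := lt_min hδ (by linarith)
  have hinf : (Set.Ioo x (x + η)).Infinite := Set.Ioo_infinite (by linarith)
  obtain ⟨v, hv, hvB⟩ := hinf.exists_notMem_finset B
  have h1 : v < 1 := by
    have := min_le_right δ (1 - x)
    linarith [hv.2]
  have h2 := hgood v (by linarith [hv.1]) h1 hvB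
  have h3 := hball (y := v) (by
    rw [Real.dist_eq, abs_of_pos (by linarith [hv.1])]
    have := min_le_left δ (1 - x)
    linarith [hv.2])
  linarith

/-- Condition (b) implies property (D). -/
theorem result (S : Finset ℝ) (hne : S.Nonempty) (hmem : ∀ a ∈ S, -1 ≤ a ∧ a ≤ 1)
    (hsym : ∀ a ∈ S, -a ∈ S) (hB : CondB (poly S)) : PropD (poly S) := by
  have main : ∀ x y : ℝ, 0 ≤ x → x ≤ 1 → 0 ≤ y →
      ‖aeval ((x : ℂ) + y * Complex.I) (poly S)‖ ≤ ‖aeval ((1 : ℂ) + y * Complex.I) (poly S)‖ := by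
    intro x y hx0 hx1 hy0
    rcases eq_or_lt_of_le hx1 with h | h
    · rw [h]; simp
    rcases eq_or_lt_of_le hy0 with h0 | h0
    · rw [← h0]
      have h1 := max_at (poly S) (poly_abs_neg S hsym) hB 1 (Or.inl rfl) x
        (abs_le.2 ⟨by linarith, hx1⟩)
      rw [poly_eval, poly_eval, Finset.abs_prod, Finset.abs_prod] at h1
      rw [poly_aeval, poly_aeval, norm_prod, norm_prod]
      have e : ∀ v a : ℝ, ‖(v : ℂ) + ((0:ℝ) : ℂ) * Complex.I - a‖ = |v - a| := by
        intro v a
        rw [← Real.norm_eq_abs, ← Complex.norm_real]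
        congr 1
        push_cast
        ring
      have e' : ∀ a : ℝ, ‖(1 : ℂ) + ((0:ℝ) : ℂ) * Complex.I - a‖ = |1 - a| := by
        intro a
        have := e 1 a
        push_cast at this
        exact this
      simp_rw [e, e']
      exact h1
    · exact nonneg_case S hne hmem hsym hB x hx0 h y h0
  have main2 : ∀ x y : ℝ, 0 ≤ x → x ≤ 1 →
      ‖aeval ((x : ℂ) + y * Complex.I) (poly S)‖ ≤ ‖aeval ((1 : ℂ) + y * Complex.I) (poly S)‖ := by
    intro x y hx0 hx1
    rcases le_total 0 y with h | h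
    · exact main x y hx0 hx1 h
    · have h1 := main x (-y) hx0 hx1 (by linarith)
      rw [norm_aeval_conj S x y] at h1
      have h2 := norm_aeval_conj S 1 y
      push_cast at h1 h2 ⊢
      rw [h2] at h1
      exact h1
  intro x y hx0 hx1
  rcases le_total 0 x with h | h
  · exact main2 x y h hx1
  · have h1 := main2 (-x) y (by linarith) (by linarith)
    have h2 := norm_aeval_neg S hsym ((x : ℂ) + (-y : ℝ) * Complex.I)
    have h3 := norm_aeval_conj S x y
    have e1 : -((x : ℂ) + (-y : ℝ) * Complex.I) = ((-x : ℝ) : ℂ) + y * Complex.I := by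
      push_cast; ring
    rw [e1] at h2
    rw [h2, h3] at h1
    exact h1

end Pool.Agent.Results.MP_1c7d4c_an.CondBImpliesD
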